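import Pool.Agent.H.MP_1fc8c4_an.C

set_option autoImplicit false

open MeasureTheory Set Filter Topology Metric
open Pool.Agent.H.MP_1fc8c4_an

namespace Pool.Agent.H.MP_5fe217_an

noncomputable abbrev I1 : E →L[ℂ] E := ContinuousLinearMap.id ℂ E

def St (g : E → E) : Prop :=
  DifferentiableOn ℂ g (Metric.ball 0 1) ∧ Set.InjOn g (Metric.ball 0 1) ∧ g 0 = 0 ∧
    fderiv ℂ g 0 = ContinuousLinearMap.id ℂ E ∧
    ∀ z ∈ Metric.ball (0 : E) 1, z ≠ 0 → 0 < (inner ℂ z ((fderiv ℂ g z).inverse (I1 (g z)))).re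

def Lin (L : (E → E) → ℂ) : Prop :=
  (∀ g₁ g₂ : E → E, DifferentiableOn ℂ g₁ (Metric.ball 0 1) →
      DifferentiableOn ℂ g₂ (Metric.ball 0 1) → L (g₁ + g₂) = L g₁ + L g₂) ∧
   (∀ (c : ℂ) (g : E → E), DifferentiableOn ℂ g (Metric.ball 0 1) → L (c • g) = c * L g) ∧
   ∃ K : Set E, IsCompact K ∧ K ⊆ Metric.ball 0 1 ∧
     ∃ C : ℝ, ∀ g : E → E, DifferentiableOn ℂ g (Metric.ball 0 1) →
       ∀ M : ℝ, (∀ x ∈ K, ‖g x‖ ≤ M) → ‖L g‖ ≤ C * M

lemma inv_of_inj (T : E →L[ℂ] E) (h : Function.Injective T) : T.IsInvertible :=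
  ⟨(LinearEquiv.ofInjectiveEndo T.toLinearMap h).toContinuousLinearEquiv, by ext1 x; rfl⟩

lemma inner_mk (z : E) (a : ℂ) : inner ℂ z (mk (z 0 * a) (z 1)) =
    ((‖z 0‖ ^ 2 : ℝ) : ℂ) * a + ((‖z 1‖ ^ 2 : ℝ) : ℂ) := by
  rw [← Complex.normSq_eq_norm_sq, ← Complex.normSq_eq_norm_sq,
    Complex.normSq_eq_conj_mul_self, Complex.normSq_eq_conj_mul_self]
  simp [PiLp.inner_apply, Fin.sum_univ_two]; ring

lemma inner_mk_pos {z : E} (hz0 : z ≠ 0) {a : ℂ} (ha : 0 < a.re) :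
    0 < (inner ℂ z (mk (z 0 * a) (z 1))).re := by
  rw [inner_mk, Complex.add_re, Complex.re_ofReal_mul, Complex.ofReal_re]
  have h3 : 0 < ‖z‖ ^ 2 := by have := norm_pos_iff.2 hz0; positivity
  rw [nsq] at h3
  rcases eq_or_ne (z 0) 0 with h4 | h4
  · rw [h4] at h3 ⊢; simpa using h3
  · have := norm_pos_iff.2 h4; positivity

lemma prod_inv {φ : ℂ → ℂ} {z : E} {d : ℂ} (hφ : HasDerivAt φ d (z 0)) (hd : d ≠ 0) :
    (fderiv ℂ (fun z : E => mk (φ (z 0)) (z 1)) z).inverse (I1 (mk (φ (z 0)) (z 1))) =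
      mk (φ (z 0) / d) (z 1) := by
  have h : ∀ i : Fin 2, HasFDerivAt (fun z : E => z i) (EuclideanSpace.proj i : E →L[ℂ] ℂ) z :=
    fun i => (EuclideanSpace.proj i : E →L[ℂ] ℂ).hasFDerivAt
  have h0 := (HasDerivAt.comp_hasFDerivAt z hφ (h 0)).smul_const e0
  have h1 := (h 1).smul_const e1
  have h2 : HasFDerivAt (fun z : E => mk (φ (z 0)) (z 1)) _ z := h0.add h1
  have h3 : ∀ v : E, fderiv ℂ (fun z : E => mk (φ (z 0)) (z 1)) z v = mk (d * v 0) (v 1) := by
    intro v; rw [h2.fderiv]; simp [MP_1fc8c4_an.mk]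
  rw [(inv_of_inj _ ?_).inverse_apply_eq, h3]
  · simp only [mk0, mk1, ContinuousLinearMap.id_apply]
    rw [mul_div_cancel₀ _ hd]
  · intro a b hab
    rw [h3, h3] at hab
    have a0 := congrArg (fun u : E => u 0) hab
    have a1 := congrArg (fun u : E => u 1) hab
    simp only [mk0, mk1] at a0 a1
    exact ext2 (mul_left_cancel₀ hd a0) a1

lemma inv_re_pos {q : ℂ} (h : 0 < q.re) : 0 < (q⁻¹).re := by
  rw [Complex.inv_re]
  exact div_pos h (Complex.normSq_pos.2 (fun h0 => by rw [h0] at h; simp at h))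

lemma prod_St {φ u q : ℂ → ℂ} (hinj : ∀ a b, ‖a‖ < 1 → ‖b‖ < 1 → φ a = φ b → a = b)
    (h : ∀ w, ‖w‖ < 1 → φ w = w * u w ∧ u w ≠ 0 ∧ HasDerivAt φ (u w * q w) w ∧ 0 < (q w).re)
    (h0 : u 0 * q 0 = 1) : St (fun z : E => mk (φ (z 0)) (z 1)) := by
  refine ⟨prod_diff (ψ := fun w => w) (fun w hw =>
    (h w (by simpa using hw)).2.2.1.differentiableAt.differentiableWithinAt) differentiableOn_id,
    fun x hx y hy hxy => ?_, ?_, ?_, fun z hz hz0 => ?_⟩
  · have a0 := congrArg (fun u : E => u 0) hxy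
    have a1 := congrArg (fun u : E => u 1) hxy
    simp only [mk0, mk1] at a0 a1
    exact ext2 (hinj _ _ (comp_lt hx 0) (comp_lt hy 0) a0) a1
  · have := (h 0 (by simp)).1
    exact ext2 (by simp [this]) (by simp)
  · have := (h 0 (by simp)).2.2.1
    rw [h0] at this
    rw [prod_fderiv (ψ := fun w => w) this (hasDerivAt_id 0), one_smul]
  · obtain ⟨a1, a2, a3, a4⟩ := h _ (comp_lt hz 0)
    have a5 : q (z 0) ≠ 0 := fun h0 => by rw [h0] at a4; simp at a4
    rw [prod_inv a3 (mul_ne_zero a2 a5)]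
    have : φ (z 0) / (u (z 0) * q (z 0)) = z 0 * (q (z 0))⁻¹ := by rw [a1]; field_simp
    rw [this]
    exact inner_mk_pos hz0 (inv_re_pos a4)

noncomputable def ph (w : ℂ) : ℂ := w / (1 - w ^ 2)
noncomputable def ps (σ w : ℂ) : ℂ := w * ((1 + σ * w / 4) / (1 - σ * w))

lemma sq_lt {w : ℂ} (hw : ‖w‖ < 1) : ‖w ^ 2‖ < 1 := by
  rw [norm_pow]; nlinarith [norm_nonneg w]

lemma ph_deriv {w : ℂ} (hw : ‖w‖ < 1) :
    HasDerivAt ph ((1 - w ^ 2)⁻¹ * ((1 + w ^ 2) / (1 - w ^ 2))) w := by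
  have h1 := one_sub_ne (sq_lt hw)
  have h2 := (hasDerivAt_id w).div (((hasDerivAt_id w).pow 2).const_sub 1) h1
  refine HasDerivAt.congr_deriv (f := ph) h2 ?_
  simp only [id, Pi.pow_apply]
  field_simp
  push_cast; ring

lemma ph_St : St (fun z : E => mk (ph (z 0)) (z 1)) := by
  refine prod_St (u := fun w => (1 - w ^ 2)⁻¹) (q := fun w => (1 + w ^ 2) / (1 - w ^ 2))
    (fun a b ha hb h => ?_) (fun w hw => ⟨by rw [ph, div_eq_mul_inv],
      inv_ne_zero (one_sub_ne (sq_lt hw)), ph_deriv hw, re_cayley (sq_lt hw)⟩) (by simp)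
  unfold ph at h
  rw [div_eq_div_iff (one_sub_ne (sq_lt ha)) (one_sub_ne (sq_lt hb))] at h
  have h3 : (a - b) * (1 + a * b) = 0 := by linear_combination h
  have h4 : ‖a * b‖ < 1 := by
    rw [norm_mul]; nlinarith [norm_nonneg a, norm_nonneg b]
  exact sub_eq_zero.1 ((mul_eq_zero.1 h3).resolve_right (one_add_ne h4))

lemma ps_St (σ : ℂ) (hσ : ‖σ‖ = 1) : St (fun z : E => mk (ps σ (z 0)) (z 1)) := by
  have n1 : ∀ w : ℂ, ‖w‖ < 1 → ‖σ * w‖ < 1 := fun w hw => by rwa [norm_mul, hσ, one_mul]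
  have n2 : ∀ w : ℂ, ‖w‖ < 1 → ‖σ * w / 4‖ < 1 / 4 := fun w hw => by
    have := n1 w hw
    rw [norm_div]; simp only [Complex.norm_ofNat]; linarith
  refine prod_St (u := fun w => (1 + σ * w / 4) / (1 - σ * w))
    (q := fun w => 1 / (1 - σ * w) + σ * w / 4 / (1 + σ * w / 4))
    (fun a b ha hb h => ?_) (fun w hw => ⟨rfl, ?_, ?_, ?_⟩) (by simp)
  · unfold ps at h
    rw [← mul_div_assoc, ← mul_div_assoc,
      div_eq_div_iff (one_sub_ne (n1 a ha)) (one_sub_ne (n1 b hb))] at h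
    have h3 : (a - b) * (1 + (σ * a / 4 + σ * b / 4 - σ * a / 4 * (σ * b))) = 0 := by
      linear_combination h
    have h4 : ‖σ * a / 4 + σ * b / 4 - σ * a / 4 * (σ * b)‖ < 1 := by
      have a1 := norm_sub_le (σ * a / 4 + σ * b / 4) (σ * a / 4 * (σ * b))
      have a2 := norm_add_le (σ * a / 4) (σ * b / 4)
      have a3 := n2 a ha
      have a4 := n2 b hb
      have a5 := n1 b hb
      rw [norm_mul (σ * a / 4)] at a1
      nlinarith [norm_nonneg (σ * a / 4), norm_nonneg (σ * b)]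
    exact sub_eq_zero.1 ((mul_eq_zero.1 h3).resolve_right (one_add_ne h4))
  · exact div_ne_zero (one_add_ne ((n2 w hw).trans (by norm_num))) (one_sub_ne (n1 w hw))
  · have h1 := one_sub_ne (n1 w hw)
    have h3 := one_add_ne ((n2 w hw).trans (by norm_num : (1/4:ℝ) < 1))
    have h2 := (hasDerivAt_id w).mul (((((hasDerivAt_id w).const_mul σ).div_const 4).const_add 1).div
      (((hasDerivAt_id w).const_mul σ).const_sub 1) h1)
    refine HasDerivAt.congr_deriv (f := ps σ) h2 ?_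
    simp only [id, Pi.div_apply]
    generalize hA : 1 + σ * w / 4 = A at *
    field_simp
    rw [← hA]; ring
  · have h1 := one_sub_ne (n1 w hw)
    have a1 := re_cayley (n1 w hw)
    have a2 : (1 + σ * w) / (1 - σ * w) = 2 * (1 / (1 - σ * w)) - 1 := by field_simp; ring
    rw [a2] at a1
    simp only [Complex.sub_re, Complex.mul_re, Complex.re_ofNat, Complex.im_ofNat, zero_mul,
      sub_zero, Complex.one_re] at a1
    have a3 : ‖σ * w / 4 / (1 + σ * w / 4)‖ ≤ 1 / 3 := by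
      have b1 := n2 w hw
      have b2 := norm_sub_norm_le (1:ℂ) (-(σ * w / 4))
      rw [sub_neg_eq_add, norm_neg, norm_one] at b2
      rw [norm_div, div_le_iff₀ (by linarith)]
      linarith
    have a4 := Complex.abs_re_le_norm (σ * w / 4 / (1 + σ * w / 4))
    have a5 := neg_abs_le (σ * w / 4 / (1 + σ * w / 4)).re
    rw [Complex.add_re]
    linarith

lemma pert_St (P : E → E) (hP : DifferentiableOn ℂ P (ball 0 1)) (h0 : P 0 = 0)
    (h1 : fderiv ℂ P 0 = 0) (hb : ∀ z ∈ ball (0:E) 1, ‖fderiv ℂ P z‖ ≤ 1 / 4) :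
    St (fun z => z + P z) := by
  have hd : ∀ z ∈ ball (0:E) 1, DifferentiableAt ℂ P z := fun z hz =>
    hP.differentiableAt (isOpen_ball.mem_nhds hz)
  have hl : ∀ x ∈ ball (0:E) 1, ∀ y ∈ ball (0:E) 1, ‖P y - P x‖ ≤ 1 / 4 * ‖y - x‖ :=
    fun x hx y hy => (convex_ball (0:E) 1).norm_image_sub_le_of_norm_fderiv_le hd hb hx hy
  have hf : ∀ z ∈ ball (0:E) 1, fderiv ℂ (fun z => z + P z) z = I1 + fderiv ℂ P z := fun z hz =>
    ((hasFDerivAt_id z).add (hd z hz).hasFDerivAt).fderiv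
  refine ⟨differentiableOn_id.add hP, fun x hx y hy hxy => ?_, by simp [h0], ?_,
    fun z hz hz0 => ?_⟩
  · have a1 := hl x hx y hy
    have a2 : P y - P x = -(y - x) := by
      have : x + P x = y + P y := hxy
      rw [neg_sub, sub_eq_sub_iff_add_eq_add, add_comm (P y)]
      exact this.symm
    rw [a2, norm_neg] at a1
    have : ‖y - x‖ = 0 := by linarith [norm_nonneg (y - x)]
    exact (sub_eq_zero.1 (norm_eq_zero.1 this)).symm
  · rw [hf 0 (mem_ball_self one_pos), h1, add_zero]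
  · rw [hf z hz]
    set D := fderiv ℂ P z
    have hD : ∀ v, ‖D v‖ ≤ 1 / 4 * ‖v‖ := fun v =>
      (D.le_opNorm v).trans (by gcongr; exact hb z hz)
    have hinv : (I1 + D).IsInvertible := inv_of_inj _ (by
      rw [injective_iff_map_eq_zero]
      intro v hv
      have a1 : D v = -v := by
        have : v + D v = 0 := hv
        exact eq_neg_of_add_eq_zero_right this
      have a2 := hD v
      rw [a1, norm_neg] at a2
      exact norm_eq_zero.1 (by linarith [norm_nonneg v]))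
    set u := (I1 + D).inverse (I1 (z + P z)) with hu
    have a1 : z + P z = u + D u := hinv.inverse_apply_eq.1 hu.symm
    have a2 : ‖P z‖ ≤ 1 / 4 * ‖z‖ := by simpa [h0] using hl 0 (mem_ball_self one_pos) z hz
    have a3 : u = z + (P z - D u) := by rw [← add_sub_assoc, a1]; abel
    have a4 : ‖P z - D u‖ ≤ 1 / 4 * ‖z‖ + 1 / 4 * ‖u‖ :=
      (norm_sub_le _ _).trans (add_le_add a2 (hD u))
    have a5 : ‖u‖ ≤ ‖z‖ + ‖P z - D u‖ := by
      conv_lhs => rw [a3]
      exact norm_add_le _ _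
    have a6 : ‖P z - D u‖ ≤ 2 / 3 * ‖z‖ := by linarith
    rw [a3, inner_add_right, Complex.add_re]
    have a7 : (inner ℂ z z).re = ‖z‖ ^ 2 := inner_self_eq_norm_sq (𝕜 := ℂ) z
    have a8 := norm_inner_le_norm (𝕜 := ℂ) z (P z - D u)
    have a9 := Complex.abs_re_le_norm (inner ℂ z (P z - D u))
    have a10 := neg_abs_le (inner ℂ z (P z - D u)).re
    have a11 := norm_pos_iff.2 hz0
    rw [a7]
    nlinarith [mul_le_mul_of_nonneg_left a6 a11.le]

lemma did : DifferentiableOn ℂ (fun z : E => z) (ball 0 1) := differentiableOn_id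

lemma Lin.sub_le {L : (E → E) → ℂ} (hL : Lin L) : ∃ K : Set E, IsCompact K ∧ K ⊆ ball 0 1 ∧
    ∃ C : ℝ, ∀ g1 g2 : E → E, DifferentiableOn ℂ g1 (ball 0 1) → DifferentiableOn ℂ g2 (ball 0 1) →
      ∀ M : ℝ, (∀ x ∈ K, ‖g1 x - g2 x‖ ≤ M) → ‖L g1 - L g2‖ ≤ C * M := by
  obtain ⟨h1, h2, K, hK, hKs, C, hC⟩ := hL
  refine ⟨K, hK, hKs, C, fun g1 g2 d1 d2 M hM => ?_⟩
  have a1 := hC (g1 + (-1:ℂ) • g2) (d1.add (d2.const_smul (-1:ℂ))) M (fun x hx => by
    have := hM x hx
    simpa [sub_eq_add_neg] using this)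
  rw [h1 _ _ d1 (d2.const_smul (-1:ℂ)), h2 _ _ d2] at a1
  simpa [sub_eq_add_neg] using a1

lemma Lin.congr {L : (E → E) → ℂ} (hL : Lin L) {g1 g2 : E → E}
    (d1 : DifferentiableOn ℂ g1 (ball 0 1)) (d2 : DifferentiableOn ℂ g2 (ball 0 1))
    (h : ∀ x ∈ ball (0:E) 1, g1 x = g2 x) : L g1 = L g2 := by
  obtain ⟨K, -, hKs, C, hC⟩ := hL.sub_le
  have := hC g1 g2 d1 d2 0 (fun x hx => by simp [h x (hKs hx)])
  rw [mul_zero, norm_le_zero_iff] at this
  exact sub_eq_zero.1 this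

lemma Lin.zero_of_max {L : (E → E) → ℂ} (hL : Lin L)
    (hmax : ∀ g, St g → (L g).re ≤ (L (fun z => z)).re) (P : E → E) (R : ℝ) (hR : 1 < R)
    (hP : DifferentiableOn ℂ P (ball 0 R)) (h0 : P 0 = 0) (h1 : fderiv ℂ P 0 = 0) :
    (L P).re = 0 := by
  set R' := (1 + R) / 2 with hR'
  have hR1 : 1 < R' := by rw [hR']; linarith
  have hR2 : R' < R := by rw [hR']; linarith
  obtain ⟨M, hM⟩ := (isCompact_closedBall (0:E) R').exists_bound_of_continuousOn
    (hP.continuousOn.mono (closedBall_subset_ball hR2))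
  have hM0 : 0 ≤ M := (norm_nonneg _).trans (hM 0 (mem_closedBall_self (by linarith)))
  have hP1 : DifferentiableOn ℂ P (ball 0 1) := hP.mono (ball_subset_ball hR.le)
  have hb : ∀ z ∈ ball (0:E) 1, ‖fderiv ℂ P z‖ ≤ 2 * M / (R' - 1) := by
    intro z hz
    have hs : ball z (R' - 1) ⊆ closedBall 0 R' := by
      intro w hw
      rw [mem_ball_zero_iff] at hz
      rw [mem_ball, dist_eq_norm] at hw
      rw [mem_closedBall_zero_iff]
      have := norm_add_le (w - z) z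
      rw [sub_add_cancel] at this
      linarith
    refine Complex.norm_fderiv_le_div_of_mapsTo_ball
      (hP.mono (hs.trans (closedBall_subset_ball hR2))) (fun w hw => ?_) (by linarith)
    rw [mem_closedBall, dist_eq_norm]
    have a1 := hM w (hs hw)
    have a2 := hM z (hs (mem_ball_self (by linarith)))
    have := norm_sub_le (P w) (P z)
    linarith
  set B := 2 * M / (R' - 1) with hB
  have hB0 : 0 ≤ B := div_nonneg (by linarith) (by linarith)
  have key : ∀ e : ℝ, |e| = 1 / (4 * (B + 1)) → e * (L P).re ≤ 0 := by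
    intro e he
    have hf : ∀ z ∈ ball (0:E) 1, fderiv ℂ ((e:ℂ) • P) z = (e:ℂ) • fderiv ℂ P z := fun z hz =>
      ((hP1.differentiableAt (isOpen_ball.mem_nhds hz)).hasFDerivAt.const_smul (e:ℂ)).fderiv
    have a1 := hmax _ (pert_St ((e:ℂ) • P) (hP1.const_smul (e:ℂ)) (by simp [h0])
      (by rw [hf 0 (mem_ball_self one_pos), h1]; ext1 v; simp) (fun z hz => by
        rw [hf z hz, norm_smul, Complex.norm_real, Real.norm_eq_abs, he]
        have := hb z hz
        rw [div_mul_eq_mul_div, div_le_div_iff₀ (by positivity) (by norm_num)]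
        linarith))
    have a2 := hL.1 (fun z => z) ((e:ℂ) • P) differentiableOn_id (hP1.const_smul (e:ℂ))
    rw [hL.2.1 _ _ hP1] at a2
    have a3 : L (fun z => z + ((e:ℂ) • P) z) = L (fun z => z) + e * L P := a2
    rw [a3, Complex.add_re, Complex.re_ofReal_mul] at a1
    linarith
  have e0 : 0 < 1 / (4 * (B + 1)) := by positivity
  have k1 := key _ (abs_of_pos e0)
  have k2 := key (-(1 / (4 * (B + 1)))) (by rw [abs_neg, abs_of_pos e0])
  have k3 : 1 / (4 * (B + 1)) * (L P).re = 0 := by linarith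
  exact (mul_eq_zero.1 k3).resolve_left e0.ne'

lemma Lin.const_of_max {L : (E → E) → ℂ} (hL : Lin L)
    (hmax : ∀ g, St g → (L g).re ≤ (L (fun z => z)).re) (g : E → E) (hg : St g) :
    (L g).re = (L (fun z => z)).re := by
  obtain ⟨d, -, g0, g1, -⟩ := hg
  have hdr : ∀ r : ℝ, 0 < r → DifferentiableOn ℂ
      (fun z => ((r⁻¹ : ℝ) : ℂ) • g ((r:ℂ) • z)) (ball 0 r⁻¹) := fun r hr => by
    refine (d.comp (differentiableOn_id.const_smul (r:ℂ)) (fun z hz => ?_)).const_smul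
      ((r⁻¹ : ℝ) : ℂ)
    rw [mem_ball_zero_iff] at hz ⊢
    show ‖(r:ℂ) • z‖ < 1
    rw [norm_smul, Complex.norm_real, Real.norm_eq_abs, abs_of_pos hr]
    rwa [← one_div, lt_div_iff₀' hr] at hz
  have step : ∀ r : ℝ, 0 < r → r < 1 →
      (L (fun z => ((r⁻¹ : ℝ) : ℂ) • g ((r:ℂ) • z))).re = (L (fun z => z)).re := by
    intro r hr hr1
    have hR : 1 < r⁻¹ := one_lt_inv_iff₀.2 ⟨hr, hr1⟩
    have hd1 := (hdr r hr).mono (ball_subset_ball hR.le)
    have a1 := hL.zero_of_max hmax ((fun z => ((r⁻¹ : ℝ) : ℂ) • g ((r:ℂ) • z)) + (-1:ℂ) • fun z => z)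
      r⁻¹ hR ((hdr r hr).add (differentiableOn_id.const_smul (-1:ℂ))) (by simp [g0]) (by
        have b1 : HasFDerivAt g I1 ((r:ℂ) • (0:E)) := by
          rw [smul_zero, I1, ← g1]
          exact (d.differentiableAt (ball_mem_nhds _ one_pos)).hasFDerivAt
        have b2 := ((b1.comp 0 ((hasFDerivAt_id (0:E)).const_smul (r:ℂ))).const_smul
          ((r⁻¹ : ℝ) : ℂ)).add ((hasFDerivAt_id (0:E)).const_smul (-1:ℂ))
        refine (HasFDerivAt.fderiv b2).trans ?_
        ext1 v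
        have : ((r⁻¹ : ℝ) : ℂ) * (r:ℂ) = 1 := by
          rw [← Complex.ofReal_mul, inv_mul_cancel₀ hr.ne']; simp
        simp only [ContinuousLinearMap.add_apply, ContinuousLinearMap.smul_apply,
          ContinuousLinearMap.comp_apply, ContinuousLinearMap.id_apply, smul_smul, this,
          ContinuousLinearMap.zero_apply]
        simp)
    rw [hL.1 _ _ hd1 (did.const_smul (-1:ℂ)), hL.2.1 _ _ did] at a1
    simp only [neg_mul, one_mul, Complex.add_re, Complex.neg_re] at a1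
    linarith
  obtain ⟨K, hK, hKs, C, hC⟩ := hL.sub_le
  have hcont : ContinuousOn (fun p : ℝ × E => ((p.1⁻¹ : ℝ) : ℂ) • g ((p.1:ℂ) • p.2))
      (Icc (1/2:ℝ) 1 ×ˢ K) := by
    refine ContinuousOn.smul (Complex.continuous_ofReal.comp_continuousOn
      (continuousOn_fst.inv₀ (fun p hp => by have := hp.1.1; positivity)))
      (d.continuousOn.comp (by fun_prop) (fun p hp => ?_))
    have a1 := hKs hp.2
    rw [mem_ball_zero_iff] at a1 ⊢
    rw [norm_smul, Complex.norm_real, Real.norm_eq_abs, abs_of_pos (by linarith [hp.1.1])]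
    exact (mul_le_of_le_one_left (norm_nonneg _) hp.1.2).trans_lt a1
  have huc := (isCompact_Icc.prod hK).uniformContinuousOn_of_continuous hcont
  rw [Metric.uniformContinuousOn_iff] at huc
  apply eq_of_abs_sub_nonpos
  apply le_of_forall_pos_le_add
  intro ε hε
  obtain ⟨δ, hδ, h1⟩ := huc (ε / (|C| + 1)) (by positivity)
  set r := max (1/2:ℝ) (1 - δ / 2) with hr
  have r1 : 1 / 2 ≤ r := le_max_left _ _
  have r2 : r < 1 := max_lt (by norm_num) (by linarith)
  have r3 : 1 - δ / 2 ≤ r := le_max_right _ _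
  have r0 : 0 < r := by linarith
  have a1 := hC g _ d ((hdr r r0).mono (ball_subset_ball (one_lt_inv_iff₀.2 ⟨r0, r2⟩).le))
    (ε / (|C| + 1)) (fun x hx => by
      have := h1 (1, x) ⟨⟨by norm_num, le_rfl⟩, hx⟩ (r, x) ⟨⟨r1, r2.le⟩, hx⟩ (by
        rw [Prod.dist_eq, dist_self, Real.dist_eq, abs_of_pos (by simp only; linarith)]
        exact max_lt (by simp only; linarith) hδ)
      rw [dist_eq_norm] at this
      simpa using this.le)
  rw [← step r r0 r2, ← Complex.sub_re, zero_add]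
  refine (Complex.abs_re_le_norm _).trans (a1.trans ?_)
  calc C * (ε / (|C| + 1)) ≤ (|C| + 1) * (ε / (|C| + 1)) := by
        gcongr; linarith [le_abs_self C]
    _ = ε := by field_simp

lemma not_supp {L : (E → E) → ℂ} (hL : Lin L)
    (hmax : ∀ g, St g → (L g).re ≤ (L (fun z : E => mk (ph (z 0)) (z 1))).re) (g1 g2 : E → E)
    (h1 : St g1) (h2 : St g2) : (L g1).re = (L g2).re := by
  have s1 := ps_St 1 (by simp)
  have s2 := ps_St (-1) (by simp)
  have e : L (fun z : E => mk (ph (z 0)) (z 1)) =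
      L (((1/5:ℝ):ℂ) • (fun z : E => z) + (((2/5:ℝ):ℂ) • (fun z : E => mk (ps 1 (z 0)) (z 1)) +
        ((2/5:ℝ):ℂ) • (fun z : E => mk (ps (-1) (z 0)) (z 1)))) := by
    refine hL.congr ph_St.1 ((differentiableOn_id.const_smul _).add
      ((s1.1.const_smul _).add (s2.1.const_smul _))) (fun z hz => ext2 ?_ ?_)
    · simp only [mk0, Pi.add_apply, Pi.smul_apply, PiLp.add_apply, PiLp.smul_apply, smul_eq_mul,
        ph, ps]
      have a1 := one_sub_ne (comp_lt hz 0)
      have a2 := one_add_ne (comp_lt hz 0)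
      have a3 : 1 - z 0 ^ 2 = (1 - z 0) * (1 + z 0) := by ring
      have a4 : 1 - -1 * z 0 = 1 + z 0 := by ring
      rw [a3, a4, one_mul]
      push_cast
      field_simp
      ring
    · simp only [mk1, Pi.add_apply, Pi.smul_apply, PiLp.add_apply, PiLp.smul_apply, smul_eq_mul]
      push_cast; ring
  rw [hL.1 _ _ (did.const_smul ((1/5:ℝ):ℂ))
      ((s1.1.const_smul ((2/5:ℝ):ℂ)).add (s2.1.const_smul ((2/5:ℝ):ℂ))),
    hL.1 _ _ (s1.1.const_smul ((2/5:ℝ):ℂ)) (s2.1.const_smul ((2/5:ℝ):ℂ)), hL.2.1 _ _ did,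
    hL.2.1 _ _ s1.1, hL.2.1 _ _ s2.1] at e
  have e2 := congrArg Complex.re e
  simp only [Complex.add_re, Complex.re_ofReal_mul] at e2
  have m1 := hmax _ s1
  have m2 := hmax _ s2
  have hm : ∀ g, St g → (L g).re ≤ (L (fun z => z)).re := fun g hg => by
    have := hmax g hg
    linarith
  rw [hL.const_of_max hm g1 h1, hL.const_of_max hm g2 h2]

lemma slice (h : E → E) (hd : DifferentiableOn ℂ h (ball 0 1)) (h0 : h 0 = 0)
    (h1 : fderiv ℂ h 0 = ContinuousLinearMap.id ℂ E)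
    (hpos : ∀ z ∈ ball (0:E) 1, z ≠ 0 → 0 < (inner ℂ z (h z)).re) (u : E) (hun : ‖u‖ = 1) :
    ∃ p : ℂ → ℂ, DifferentiableOn ℂ p (ball 0 1) ∧ p 0 = 1 ∧ (∀ w ∈ ball (0:ℂ) 1, 0 < (p w).re) ∧
      ∀ w : ℂ, inner ℂ (w • u) (h (w • u)) = ((‖w‖ ^ 2 : ℝ) : ℂ) * p w := by
  have hmem : ∀ w ∈ ball (0:ℂ) 1, w • u ∈ ball (0:E) 1 := fun w hw => by
    rw [mem_ball_zero_iff] at hw ⊢
    rw [norm_smul, hun, mul_one]; exact hw
  set φ : ℂ → ℂ := fun w => innerSL ℂ u (h (w • u)) with hφ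
  have hφd : DifferentiableOn ℂ φ (ball 0 1) :=
    (innerSL ℂ u).differentiable.comp_differentiableOn
      (hd.comp (differentiableOn_id.smul_const u) hmem)
  have hφ0 : φ 0 = 0 := by simp [hφ, h0]
  have hder : deriv φ 0 = 1 := by
    have a1 : HasFDerivAt h (ContinuousLinearMap.id ℂ E) ((0:ℂ) • u) := by
      rw [zero_smul, ← h1]
      exact (hd.differentiableAt (ball_mem_nhds _ one_pos)).hasFDerivAt
    have a2 : HasDerivAt (fun w : ℂ => w • u) u 0 := by
      simpa using (hasDerivAt_id (0:ℂ)).smul_const u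
    have a3 := (innerSL ℂ u).hasFDerivAt.comp_hasDerivAt (0:ℂ) (a1.comp_hasDerivAt (0:ℂ) a2)
    have a4 : HasDerivAt φ (innerSL ℂ u u) 0 := a3
    rw [a4.deriv, innerSL_apply_apply, inner_self_eq_norm_sq_to_K, hun]; simp
  have hp : DifferentiableOn ℂ (dslope φ 0) (ball 0 1) :=
    (Complex.differentiableOn_dslope (ball_mem_nhds _ one_pos)).2 hφd
  have hrel : ∀ w : ℂ, inner ℂ (w • u) (h (w • u)) = ((‖w‖ ^ 2 : ℝ) : ℂ) * dslope φ 0 w := by
    intro w
    rcases eq_or_ne w 0 with rfl | hw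
    · simp
    rw [dslope_of_ne _ hw, slope_def_field, hφ0, inner_smul_left]
    simp only [hφ, innerSL_apply_apply, sub_zero]
    rw [← Complex.normSq_eq_norm_sq, Complex.normSq_eq_conj_mul_self]
    field_simp
  refine ⟨dslope φ 0, hp, by simp [hder], fun w hw => ?_, hrel⟩
  rcases eq_or_ne w 0 with rfl | hw0
  · simp [hder]
  have h2 := hpos (w • u) (hmem w hw) (smul_ne_zero hw0 (by
    intro h; rw [h] at hun; simp at hun))
  rw [hrel, Complex.re_ofReal_mul] at h2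
  exact (pos_iff_pos_of_mul_pos h2).1 (by have := norm_pos_iff.2 hw0; positivity)

lemma cara2 (p : ℂ → ℂ) (hp : DifferentiableOn ℂ p (ball 0 1)) (h0 : p 0 = 1)
    (hpos : ∀ w ∈ ball (0:ℂ) 1, 0 < (p w).re) (hev : ∀ w, p (-w) = p w) :
    3 / 5 ≤ (p (1 / 2)).re := by
  have hne : ∀ u ∈ ball (0:ℂ) 1, p u + 1 ≠ 0 := fun u hu h => by
    have h1 := hpos u hu
    have h2 := congrArg Complex.re h
    simp at h2; linarith
  set ω : ℂ → ℂ := fun u => (p u - 1) / (p u + 1) with hω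
  have hd : DifferentiableOn ℂ ω (ball 0 1) := (hp.sub_const 1).div (hp.add_const 1) hne
  have hω0 : ω 0 = 0 := by simp [hω, h0]
  have hm : MapsTo ω (ball (0:ℂ) 1) (closedBall (ω 0) 1) := by
    intro u hu
    rw [hω0, mem_closedBall_zero_iff, norm_div, div_le_one (norm_pos_iff.2 (hne u hu))]
    have h1 := hpos u hu
    apply le_of_pow_le_pow_left₀ two_ne_zero (norm_nonneg _)
    rw [Complex.sq_norm, Complex.sq_norm, Complex.normSq_apply, Complex.normSq_apply]
    simp only [Complex.sub_re, Complex.one_re, Complex.sub_im, Complex.one_im, sub_zero,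
      Complex.add_re, Complex.add_im, add_zero]
    nlinarith
  have d1 := (hd.differentiableAt (ball_mem_nhds _ one_pos)).hasDerivAt
  have d2 : HasDerivAt ω (deriv ω 0 * -1) 0 := by
    have a1 : HasDerivAt ω (deriv ω 0) (-0) := by rwa [neg_zero]
    have a2 := a1.comp (0:ℂ) (hasDerivAt_neg (0:ℂ))
    have a3 : ω ∘ Neg.neg = ω := by funext w; simp [hω, hev]
    rwa [a3] at a2
  have d3 : deriv ω 0 = 0 := by linear_combination (d1.unique d2) / 2
  rw [d3] at d1
  have hw : (1 / 2 : ℂ) ∈ ball (0:ℂ) 1 := by simp; norm_num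
  have h3 := Complex.dist_le_mul_div_pow_of_mapsTo_ball_of_isLittleO (n := 1) hd hm (by
    have := d1.isLittleO
    simpa using this.norm_right) hw
  rw [hω0, dist_zero_right, dist_zero_right, norm_div (p (1 / 2) - 1),
    div_le_iff₀ (norm_pos_iff.2 (hne _ hw))] at h3
  have h5 := hpos _ hw
  have h4 : ‖p (1 / 2) - 1‖ ^ 2 ≤ (1 / 4 * ‖p (1 / 2) + 1‖) ^ 2 := by
    gcongr
    refine h3.trans_eq ?_
    simp; norm_num
  rw [mul_pow, Complex.sq_norm (p (1 / 2) - 1), Complex.sq_norm (p (1 / 2) + 1),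
    Complex.normSq_apply, Complex.normSq_apply] at h4
  simp only [Complex.sub_re, Complex.one_re, Complex.sub_im, Complex.one_im, sub_zero,
    Complex.add_re, Complex.add_im, add_zero] at h4
  nlinarith [mul_self_nonneg (p (1 / 2)).im]

noncomputable def LL (g : E → E) : ℂ := g ((-(1 / 2) : ℂ) • e0) 0 - g ((1 / 2 : ℂ) • e0) 0

lemma e0_norm : ‖e0‖ = 1 := by simp [e0]

lemma half_mem (c : ℂ) (hc : ‖c‖ = 1 / 2) : c • e0 ∈ ball (0:E) 1 := by
  rw [mem_ball_zero_iff, norm_smul, hc, e0_norm]; norm_num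

lemma LL_lin : Lin LL := by
  refine ⟨fun g1 g2 _ _ => by simp [LL]; ring, fun c g _ => by simp [LL]; ring,
    {(-(1 / 2) : ℂ) • e0, (1 / 2 : ℂ) • e0}, (Set.toFinite _).isCompact, ?_, 2, fun g _ M hM => ?_⟩
  · rintro x (rfl | rfl)
    · exact half_mem _ (by simp)
    · exact half_mem _ (by simp)
  · have a1 := (PiLp.norm_apply_le _ 0).trans (hM _ (Or.inl rfl))
    have a2 := (PiLp.norm_apply_le _ 0).trans (hM _ (Or.inr rfl))
    exact (norm_sub_le _ _).trans (by linarith)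

lemma LL_le (h : E → E) (hd : DifferentiableOn ℂ h (ball 0 1)) (h0 : h 0 = 0)
    (h1 : fderiv ℂ h 0 = ContinuousLinearMap.id ℂ E)
    (hpos : ∀ z ∈ ball (0:E) 1, z ≠ 0 → 0 < (inner ℂ z (h z)).re) : (LL h).re ≤ -(3 / 5) := by
  obtain ⟨p, p1, p2, p3, p4⟩ := slice h hd h0 h1 hpos e0 e0_norm
  have hn : MapsTo (fun w : ℂ => -w) (ball 0 1) (ball 0 1) := fun w hw => by simpa using hw
  have a1 := cara2 (fun w => (p w + p (-w)) / 2)
    ((p1.add (p1.comp differentiableOn_id.neg hn)).div_const 2) (by simp [p2]) (fun w hw => by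
      have b1 := p3 w hw
      have b2 := p3 _ (hn hw)
      simp only [Complex.div_ofNat_re, Complex.add_re]
      linarith) (fun w => by simp [add_comm])
  have b : ∀ (w : ℂ) (v : E), inner ℂ (w • e0) v = (starRingEnd ℂ) w * v 0 := fun w v => by
    rw [inner_smul_left]; simp [e0, EuclideanSpace.inner_single_left]
  have c1 := p4 (1 / 2)
  have c2 := p4 (-(1 / 2))
  rw [b] at c1 c2
  have d1 : h ((1 / 2 : ℂ) • e0) 0 = p (1 / 2) / 2 := by
    simp only [map_div₀, map_one, map_ofNat, norm_div, norm_one, Complex.norm_ofNat] at c1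
    push_cast at c1
    linear_combination 2 * c1
  have d2 : h ((-(1 / 2) : ℂ) • e0) 0 = -(p (-(1 / 2)) / 2) := by
    simp only [map_neg, norm_neg, map_div₀, map_one, map_ofNat, norm_div, norm_one,
      Complex.norm_ofNat] at c2
    push_cast at c2
    linear_combination (-2) * c2
  unfold LL
  rw [d1, d2]
  simp only [Complex.div_ofNat_re, Complex.add_re, Complex.sub_re, Complex.neg_re] at a1 ⊢
  linarith

lemma LL_f : (LL (fun z => (fderiv ℂ (fun z : E => mk (ph (z 0)) (z 1)) z).inverse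
    (I1 (mk (ph (z 0)) (z 1))))).re = -(3 / 5) := by
  have k : ∀ c : ℂ, c ^ 2 = 1 / 4 → ‖c‖ = 1 / 2 →
      (fderiv ℂ (fun z : E => mk (ph (z 0)) (z 1)) (c • e0)).inverse
        (I1 (mk (ph ((c • e0) 0)) ((c • e0) 1))) 0 = 3 / 5 * c := by
    intro c hc hc'
    have a0 : (c • e0) 0 = c := by simp [e0]
    have a1 := ph_deriv (comp_lt (half_mem c hc') 0)
    rw [prod_inv a1 (by rw [a0, hc]; norm_num), mk0, a0, ph, hc]
    ring
  unfold LL
  simp only
  rw [k _ (by norm_num) (by simp), k _ (by norm_num) (by simp)]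
  norm_num

lemma LL_id : (LL (fun z => z)).re = -1 := by
  simp [LL, e0]; norm_num

lemma LL_hh : (LL (fun z : E => mk (hh (z 0)) (z 1))).re = -(5 / 3) := by
  simp [LL, e0, hh]; norm_num

end Pool.Agent.H.MP_5fe217_an
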